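import Pool.Agent.Helper43.FV.Spec

/-!
# Module ELLQ: the liftable translations are finite in number or all translations
-/

namespace Pool.Agent.Helper43.FV

open Pool.Agent.Helper43.RS
open scoped ComplexConjugate TensorProduct
open MvPolynomial

section ELLQfam

variable {S K : Type} [CommRing S] [Algebra ℂ S] [Field K] [Algebra ℂ K]

theorem ELLQ_fam_of {ι : Type} [Fintype ι] {P : (S →ₐ[ℂ] ℂ) → K} (s : ι → S) (k : ι → K)
    (h : ∀ z, P z = ∑ i, z (s i) • k i) : Fam P := by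
  refine ⟨Fintype.card ι, s ∘ (Fintype.equivFin ι).symm, k ∘ (Fintype.equivFin ι).symm, ?_⟩
  intro z
  rw [h z]
  exact (Equiv.sum_comp (Fintype.equivFin ι).symm (fun i => z (s i) • k i)).symm

theorem ELLQ_fam_const (k : K) : Fam (S := S) (fun _ => k) :=
  ELLQ_fam_of (ι := Unit) (fun _ => 1) (fun _ => k) (by intro z; simp)

theorem ELLQ_fam_add {P Q : (S →ₐ[ℂ] ℂ) → K} (hP : Fam P) (hQ : Fam Q) :
    Fam (fun z => P z + Q z) := by
  obtain ⟨n, s, k, h⟩ := hP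
  obtain ⟨m, s', k', h'⟩ := hQ
  refine ELLQ_fam_of (ι := Fin n ⊕ Fin m) (Sum.elim s s') (Sum.elim k k') ?_
  intro z
  rw [h, h', Fintype.sum_sum_type]
  rfl

theorem ELLQ_fam_mul {P Q : (S →ₐ[ℂ] ℂ) → K} (hP : Fam P) (hQ : Fam Q) :
    Fam (fun z => P z * Q z) := by
  obtain ⟨n, s, k, h⟩ := hP
  obtain ⟨m, s', k', h'⟩ := hQ
  refine ELLQ_fam_of (ι := Fin n × Fin m) (fun i => s i.1 * s' i.2)
    (fun i => k i.1 * k' i.2) ?_
  intro z
  rw [h, h', Finset.sum_mul_sum, Fintype.sum_prod_type]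
  refine Finset.sum_congr rfl fun i _ => Finset.sum_congr rfl fun j _ => ?_
  simp only [map_mul, Algebra.smul_def]
  ring

theorem ELLQ_fam_sum {ι : Type} (t : Finset ι) {P : ι → (S →ₐ[ℂ] ℂ) → K}
    (hP : ∀ i, Fam (P i)) : Fam (fun z => ∑ i ∈ t, P i z) := by
  classical
  induction t using Finset.induction_on with
  | empty => simpa using ELLQ_fam_const (S := S) (0 : K)
  | insert a t ha ih =>
    have := ELLQ_fam_add (hP a) ih
    simpa [Finset.sum_insert ha] using this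

theorem ELLQ_fam_prod {ι : Type} (t : Finset ι) {P : ι → (S →ₐ[ℂ] ℂ) → K}
    (hP : ∀ i, Fam (P i)) : Fam (fun z => ∏ i ∈ t, P i z) := by
  classical
  induction t using Finset.induction_on with
  | empty => simpa using ELLQ_fam_const (S := S) (1 : K)
  | insert a t ha ih =>
    have := ELLQ_fam_mul (hP a) ih
    simpa [Finset.prod_insert ha] using this

theorem ELLQ_fam_comap {S' : Type} [CommRing S'] [Algebra ℂ S'] (g : S →ₐ[ℂ] S')
    {P : (S →ₐ[ℂ] ℂ) → K} (hP : Fam P) :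
    Fam (fun z : S' →ₐ[ℂ] ℂ => P (z.comp g)) := by
  obtain ⟨n, s, k, h⟩ := hP
  exact ⟨n, fun i => g (s i), k, fun z => h (z.comp g)⟩

theorem ELLQ_fam_map (F : IntermediateField ℂ K) {P : (S →ₐ[ℂ] ℂ) → F} (hP : Fam P) :
    Fam (fun z => ((P z : F) : K)) := by
  obtain ⟨n, s, k, h⟩ := hP
  refine ⟨n, s, fun i => ((k i : F) : K), ?_⟩
  intro z
  show ((P z : F) : K) = _
  rw [h z]
  have : ((∑ i, z (s i) • k i : F) : K) = F.val (∑ i, z (s i) • k i) := rfl
  rw [this, map_sum]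
  refine Finset.sum_congr rfl fun i _ => ?_
  rw [map_smul]
  rfl

end ELLQfam

section ELLQpts

variable {S : Type} [CommRing S] [Algebra ℂ S]

/-- vanishing ideal -/
def ELLQ_van (Θ : Set (S →ₐ[ℂ] ℂ)) : Ideal S where
  carrier := {s | ∀ ζ ∈ Θ, ζ s = 0}
  add_mem' := by
    intro a b ha hb ζ hζ
    rw [map_add, ha ζ hζ, hb ζ hζ, add_zero]
  zero_mem' := fun ζ _ => map_zero ζ
  smul_mem' := by
    intro c a ha ζ hζ
    rw [smul_eq_mul, map_mul, ha ζ hζ, mul_zero]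

theorem ELLQ_mem_van {Θ : Set (S →ₐ[ℂ] ℂ)} {s : S} :
    s ∈ ELLQ_van Θ ↔ ∀ ζ ∈ Θ, ζ s = 0 := Iff.rfl

theorem ELLQ_van_anti {Θ Θ' : Set (S →ₐ[ℂ] ℂ)} (h : Θ' ⊆ Θ) : ELLQ_van Θ ≤ ELLQ_van Θ' :=
  fun _ hs ζ hζ => hs ζ (h hζ)

theorem ELLQ_max [IsNoetherianRing S] {E : Type} (g : (S →ₐ[ℂ] ℂ) → E)
    (Θ : Set (S →ₐ[ℂ] ℂ)) (hinf : (g '' Θ).Infinite) :
    ∃ Θ' ⊆ Θ, (g '' Θ').Infinite ∧ (ELLQ_van Θ').IsPrime := by
  classical
  let 𝓢 : Set (Ideal S) := {I | ∃ Θ' ⊆ Θ, (g '' Θ').Infinite ∧ I = ELLQ_van Θ'}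
  have hne : 𝓢.Nonempty := ⟨_, Θ, subset_rfl, hinf, rfl⟩
  obtain ⟨I, ⟨Θ', hsub, hinf', rfl⟩, hmax⟩ :=
    WellFounded.has_min (wellFounded_gt : WellFounded ((· > ·) : Ideal S → Ideal S → Prop))
      𝓢 hne
  refine ⟨Θ', hsub, hinf', ?_⟩
  refine ⟨?_, ?_⟩
  · intro htop
    obtain ⟨e, ζ, hζ, -⟩ := hinf'.nonempty
    have h1 : (1 : S) ∈ ELLQ_van Θ' := by rw [htop]; trivial
    have := h1 ζ hζ
    rw [map_one] at this
    exact one_ne_zero this
  · intro x y hxy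
    have hcov : g '' Θ' ⊆ g '' (Θ' ∩ {ζ | ζ x = 0}) ∪ g '' (Θ' ∩ {ζ | ζ y = 0}) := by
      rintro e ⟨ζ, hζ, rfl⟩
      have := hxy ζ hζ
      rw [map_mul] at this
      rcases mul_eq_zero.mp this with h | h
      · exact Or.inl ⟨ζ, ⟨hζ, h⟩, rfl⟩
      · exact Or.inr ⟨ζ, ⟨hζ, h⟩, rfl⟩
    have key : ∀ t : S, (g '' (Θ' ∩ {ζ | ζ t = 0})).Infinite → t ∈ ELLQ_van Θ' := by
      intro t ht
      have h1 : ELLQ_van (Θ' ∩ {ζ | ζ t = 0}) ∈ 𝓢 :=
        ⟨_, Set.inter_subset_left.trans hsub, ht, rfl⟩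
      have h2 := hmax _ h1
      have h3 : ELLQ_van Θ' ≤ ELLQ_van (Θ' ∩ {ζ | ζ t = 0}) :=
        ELLQ_van_anti Set.inter_subset_left
      have h4 : ELLQ_van Θ' = ELLQ_van (Θ' ∩ {ζ | ζ t = 0}) := by
        by_contra hcon
        exact h2 (lt_of_le_of_ne h3 hcon)
      rw [h4]
      exact fun ζ hζ => hζ.2
    by_contra hcon
    rw [not_or] at hcon
    have h1 : (g '' (Θ' ∩ {ζ | ζ x = 0})).Finite := by
      by_contra h
      exact hcon.1 (key x h)
    have h2 : (g '' (Θ' ∩ {ζ | ζ y = 0})).Finite := by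
      by_contra h
      exact hcon.2 (key y h)
    exact hinf' ((h1.union h2).subset hcov)

theorem ELLQ_ker_eq {z z' : S →ₐ[ℂ] ℂ} (h : ∀ s, z s = 0 → z' s = 0) : z = z' := by
  ext s
  have h1 : z (s - algebraMap ℂ S (z s)) = 0 := by
    rw [map_sub, AlgHom.commutes]
    simp
  have h2 := h _ h1
  rw [map_sub, AlgHom.commutes, sub_eq_zero] at h2
  simpa using h2.symm

theorem ELLQ_fin [IsDomain S] [IsNoetherianRing S]
    (hdim : ∀ P : Ideal S, P.IsPrime → P ≠ ⊥ → P.IsMaximal) (h : S) (hh : h ≠ 0) :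
    {z : S →ₐ[ℂ] ℂ | z h = 0}.Finite := by
  have hfin := Ideal.finite_minimalPrimes_of_isNoetherianRing S (Ideal.span {h})
  have hinj : Set.InjOn (fun z : S →ₐ[ℂ] ℂ => RingHom.ker (z : S →+* ℂ))
      ((fun z : S →ₐ[ℂ] ℂ => RingHom.ker (z : S →+* ℂ)) ⁻¹'
        (Ideal.span {h}).minimalPrimes) := by
    intro z _ z' _ hzz
    apply ELLQ_ker_eq
    intro s hs
    have h1 : s ∈ RingHom.ker (z : S →+* ℂ) := hs
    have h2 : s ∈ RingHom.ker (z' : S →+* ℂ) := by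
      have h3 : RingHom.ker (z : S →+* ℂ) = RingHom.ker (z' : S →+* ℂ) := hzz
      rw [← h3]
      exact h1
    exact h2
  refine (Set.Finite.preimage hinj hfin).subset ?_
  intro z hz
  have hz' : z h = 0 := hz
  have hprime : (RingHom.ker (z : S →+* ℂ)).IsPrime := RingHom.ker_isPrime _
  have hle : Ideal.span {h} ≤ RingHom.ker (z : S →+* ℂ) := by
    rw [Ideal.span_singleton_le_iff_mem]
    exact hz'
  obtain ⟨P, hP, hPle⟩ := Ideal.exists_minimalPrimes_le hle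
  have hPp : P.IsPrime := hP.1.1
  have hPne : P ≠ ⊥ := by
    rintro rfl
    have h1 : h ∈ (⊥ : Ideal S) := hP.1.2 (Ideal.mem_span_singleton_self h)
    exact hh (by simpa using h1)
  have hPm := hdim P hPp hPne
  have : P = RingHom.ker (z : S →+* ℂ) := hPm.eq_of_le hprime.ne_top hPle
  have h7 := hP
  rw [this] at h7
  exact h7

end ELLQpts

theorem ELLQ_cof {E : Type} [AddCommGroup E] (Q : Set E) (hneg : ∀ e ∈ Q, -e ∈ Q)
    (hadd : ∀ e ∈ Q, ∀ e' ∈ Q, e + e' ∈ Q) (hcof : Qᶜ.Finite) (hinf : Q.Infinite) :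
    Q = Set.univ := by
  by_contra hne
  obtain ⟨e, he⟩ : ∃ e, e ∉ Q := by
    by_contra hcon
    push Not at hcon
    exact hne (Set.eq_univ_of_forall hcon)
  apply (hinf.image (f := fun x => e + x) (fun x _ y _ hxy => by simpa using hxy))
  refine hcof.subset ?_
  rintro _ ⟨x, hx, rfl⟩ hcon
  apply he
  have := hadd _ hcon _ (hneg x hx)
  simpa using this

section ELLQpres

variable {K : Type} [Field K] [Algebra ℂ K]

theorem ELLQ_pres_mul {X : Set (Subalgebra ℂ K)} {a b : K ≃ₐ[ℂ] K} (ha : Pres X a)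
    (hb : Pres X b) : Pres X (a * b : K ≃ₐ[ℂ] K) := by
  constructor
  · intro O hO
    obtain ⟨O1, hO1, h1⟩ := hb.1 O hO
    obtain ⟨O2, hO2, h2⟩ := ha.1 O1 hO1
    exact ⟨O2, hO2, fun f => (h1 f).trans (h2 (b f))⟩
  · intro O hO
    obtain ⟨O1, hO1, h1⟩ := ha.2 O hO
    obtain ⟨O2, hO2, h2⟩ := hb.2 O1 hO1
    exact ⟨O2, hO2, fun f => (h2 f).trans (h1 (b f))⟩

theorem ELLQ_pres_symm {X : Set (Subalgebra ℂ K)} {a : K ≃ₐ[ℂ] K} (ha : Pres X a) :
    Pres X a.symm := by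
  constructor
  · intro O hO
    obtain ⟨O1, hO1, h1⟩ := ha.2 O hO
    refine ⟨O1, hO1, fun f => ?_⟩
    rw [h1 (a.symm f), a.apply_symm_apply]
  · intro O hO
    obtain ⟨O1, hO1, h1⟩ := ha.1 O hO
    refine ⟨O1, hO1, fun f => ?_⟩
    rw [h1 (a.symm f), a.apply_symm_apply]

end ELLQpres

section ELLQdiv

variable {F : Type} [Field F] [Algebra ℂ F]

theorem ELLQ_act_act (b : F ≃ₐ[ℂ] F) (w : Pl F) : actPl b (actPl b.symm w) = w := by
  apply Subtype.ext
  funext f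
  show w.1 (b.symm.symm (b.symm f)) = w.1 f
  simp

theorem ELLQ_act_inj (b : F ≃ₐ[ℂ] F) : Function.Injective (actPl b) := by
  intro w w' h
  apply Subtype.ext
  funext f
  have h1 : (actPl b w).1 (b f) = (actPl b w').1 (b f) := by rw [h]
  have h2 : w.1 (b.symm (b f)) = w'.1 (b.symm (b f)) := h1
  simpa using h2

theorem ELLQ_dg_add (D D' : Dv F) : dg (D + D') = dg D + dg D' :=
  Finsupp.sum_add_index' (fun _ => rfl) (fun _ _ _ => rfl)

theorem ELLQ_dg_sub (D D' : Dv F) : dg (D - D') = dg D - dg D' :=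
  Finsupp.sum_sub_index (fun _ _ _ => rfl)

theorem ELLQ_dg_single (w : Pl F) (n : ℤ) : dg (Finsupp.single w n : Dv F) = n :=
  Finsupp.sum_single_index rfl

theorem ELLQ_dg_map (b : F ≃ₐ[ℂ] F) (D : Dv F) : dg (D.mapDomain (actPl b)) = dg D :=
  Finsupp.sum_mapDomain_index (fun _ => rfl) (fun _ _ _ => rfl)

/-- elements with few poles are quotients of elements of a fixed Riemann-Roch space -/
theorem ELLQ_ratio (hRIE : ST_RIE) (hDEG : ST_DEG) (hF : FF F) (m : ℤ) :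
    ∃ D₀ : Dv F, Module.Finite ℂ (LL D₀) ∧ ∀ (u : F) (P : Dv F), u ≠ 0 → dg P ≤ m →
      (∀ w, 0 ≤ P w) → (∀ w : Pl F, - P w ≤ w.1 u) →
      ∃ α ∈ LL D₀, ∃ β ∈ LL D₀, α ≠ 0 ∧ β ≠ 0 ∧ β * u = α := by
  obtain ⟨hfin, g, c, h1, -⟩ := hRIE F hF
  obtain ⟨o⟩ : Nonempty (Pl F) := by
    obtain ⟨t, ht⟩ := hF.nonconst
    have ht0 : t ≠ 0 := by
      have := ht 0
      rwa [map_zero] at this
    obtain ⟨D, -, -, h3⟩ := hDEG F hF t ht0
    obtain ⟨h4, h5⟩ := h3 ht
    by_contra hcon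
    rw [not_nonempty_iff] at hcon
    have hD : D = 0 := Subsingleton.elim _ _
    rw [hD, Finsupp.sum_zero_index] at h5
    omega
  let N : ℤ := max 0 (m + g)
  refine ⟨Finsupp.single o N, hfin _, ?_⟩
  intro u P hu hPm hP0 hPu
  have h2 : 1 ≤ ll (Finsupp.single o N - P) := by
    have h3 := h1 (Finsupp.single o N - P)
    rw [ELLQ_dg_sub, ELLQ_dg_single] at h3
    have h4 : m + g ≤ N := le_max_right _ _
    omega
  have h3 : LL (Finsupp.single o N - P) ≠ ⊥ := by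
    intro hcon
    unfold ll at h2
    rw [hcon, finrank_bot] at h2
    simp at h2
  obtain ⟨β, hβ, hβ0⟩ := Submodule.exists_mem_ne_zero_of_ne_bot h3
  have hβ1 := hβ hβ0
  refine ⟨β * u, ?_, β, ?_, mul_ne_zero hβ0 hu, hβ0, rfl⟩
  · intro _ w
    rw [w.2.mul _ _ hβ0 hu]
    have h4 := hβ1 w
    have h5 := hPu w
    rw [Finsupp.sub_apply] at h4
    omega
  · intro _ w
    have h4 := hβ1 w
    have h5 := hP0 w
    rw [Finsupp.sub_apply] at h4
    omega

end ELLQdiv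

/-- GENREG for arbitrary finite index sets -/
theorem ELLQ_genreg (hG : ST_GENREG) (K : Type) [Field K] [Algebra ℂ K]
    (X : Set (Subalgebra ℂ K)) (hX : IsModel X)
    (S : Type) [CommRing S] [IsDomain S] [Algebra ℂ S] [Algebra.FiniteType ℂ S]
    (Γ : Set (S →ₐ[ℂ] ℂ)) (hΓ : DensePts Γ)
    (ι : Type) [Fintype ι] (f : ι → K) (hf : FGen (Set.range f))
    (N D N' D' : ι → (S →ₐ[ℂ] ℂ) → K) (hN : ∀ j, Fam (N j)) (hD : ∀ j, Fam (D j))
    (hN' : ∀ j, Fam (N' j)) (hD' : ∀ j, Fam (D' j)) (C : Set (K ≃ₐ[ℂ] K))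
    (hmain : ∀ γ ∈ Γ, ∃ a : K ≃ₐ[ℂ] K, Pres X a ∧ (∀ b ∈ C, a * b = b * a) ∧
        ∀ j, D j γ ≠ 0 ∧ D j γ * a (f j) = N j γ ∧ D' j γ ≠ 0 ∧
          D' j γ * a.symm (f j) = N' j γ) :
    ∃ h : S, h ≠ 0 ∧ ∀ z : S →ₐ[ℂ] ℂ, z h ≠ 0 →
        ∃ a : K ≃ₐ[ℂ] K, Pres X a ∧ (∀ b ∈ C, a * b = b * a) ∧
          ∀ j, D j z ≠ 0 ∧ D j z * a (f j) = N j z := by
  let ε := (Fintype.equivFin ι).symm
  have hf' : FGen (Set.range (f ∘ ε)) := by
    rw [Set.range_comp, Equiv.range_eq_univ, Set.image_univ]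
    exact hf
  obtain ⟨h, hh, hz⟩ := hG K X hX S Γ hΓ (Fintype.card ι) (f ∘ ε) hf' (fun j => N (ε j))
    (fun j => D (ε j)) (fun j => N' (ε j)) (fun j => D' (ε j)) (fun j => hN _)
    (fun j => hD _) (fun j => hN' _) (fun j => hD' _) C (by
      intro γ hγ
      obtain ⟨a, h1, h2, h3⟩ := hmain γ hγ
      exact ⟨a, h1, h2, fun j => h3 (ε j)⟩)
  refine ⟨h, hh, fun z hzh => ?_⟩
  obtain ⟨a, h1, h2, h3⟩ := hz z hzh
  refine ⟨a, h1, h2, fun j => ?_⟩
  have h4 := h3 (ε.symm j)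
  simp only [Function.comp, Equiv.apply_symm_apply] at h4
  exact ⟨h4.1, h4.2.1⟩

section ELLQmain

variable {K : Type} [Field K] [Algebra ℂ K] {F : IntermediateField ℂ K} {n r : ℕ}
  {S : Type} [CommRing S] [Algebra ℂ S]

/-- polynomials in the coefficients of numerators and denominators -/
abbrev ELLQ_S1 (n r : ℕ) (S : Type) [CommRing S] : Type := MvPolynomial (Bool × Fin n × Fin r) S

/-- the numerators (`true`) and denominators (`false`) at a point -/
noncomputable def ELLQ_co {L : Type} [Field L] [Algebra ℂ L] (l : Fin r → L)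
    (ζ : ELLQ_S1 n r S →ₐ[ℂ] ℂ) (q : Bool) (i : Fin n) : L :=
  ∑ k, ζ (MvPolynomial.X (q, i, k)) • l k

/-- the inclusion of the parameters -/
noncomputable def ELLQ_inc (n r : ℕ) (S : Type) [CommRing S] [Algebra ℂ S] :
    S →ₐ[ℂ] ELLQ_S1 n r S :=
  IsScalarTower.toAlgHom ℂ S (ELLQ_S1 n r S)

theorem ELLQ_inc_inj : Function.Injective (ELLQ_inc n r S) :=
  MvPolynomial.C_injective _ _

theorem ELLQ_co_fam {L S' : Type} [Field L] [Algebra ℂ L] [CommRing S'] [Algebra ℂ S']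
    (g : ELLQ_S1 n r S →ₐ[ℂ] S') (l : Fin r → L) (q : Bool) (i : Fin n) :
    Fam (fun z : S' →ₐ[ℂ] ℂ => ELLQ_co l (z.comp g) q i) :=
  ELLQ_fam_of (ι := Fin r) (fun k => g (MvPolynomial.X (q, i, k))) l (fun _ => rfl)

theorem ELLQ_gen (s : Finset F) (hs : FGen (s : Set F)) (a : K ≃ₐ[ℂ] K) (b : F ≃ₐ[ℂ] F)
    (h : ∀ t ∈ s, ((b t : F) : K) = a t) : ResTo F a b := by
  intro f
  have hf : f ∈ IntermediateField.adjoin ℂ (s : Set F) := by
    rw [show IntermediateField.adjoin ℂ (s : Set F) = ⊤ from hs]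
    exact IntermediateField.mem_top
  induction hf using IntermediateField.adjoin_induction with
  | mem x hx => exact h x hx
  | algebraMap c =>
    rw [b.commutes]
    have : ((algebraMap ℂ F c : F) : K) = algebraMap ℂ K c := rfl
    rw [this, a.commutes]
  | add x y hx hy h1 h2 =>
    rw [map_add]
    have e1 : ((x + y : F) : K) = (x : K) + y := rfl
    have e2 : ((b x + b y : F) : K) = ((b x : F) : K) + (b y : F) := rfl
    rw [e1, e2, map_add, h1, h2]
  | inv x hx h1 =>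
    rw [map_inv₀]
    have e1 : ((x⁻¹ : F) : K) = (x : K)⁻¹ := rfl
    have e2 : (((b x)⁻¹ : F) : K) = ((b x : F) : K)⁻¹ := rfl
    rw [e1, e2, map_inv₀, h1]
  | mul x y hx hy h1 h2 =>
    rw [map_mul]
    have e1 : ((x * y : F) : K) = (x : K) * y := rfl
    have e2 : ((b x * b y : F) : K) = ((b x : F) : K) * (b y : F) := rfl
    rw [e1, e2, map_mul, h1, h2]

theorem ELLQ_symm {E : Type} [AddCommGroup E] (T : Multiplicative E →* (F ≃ₐ[ℂ] F)) (e : E)
    (a : K ≃ₐ[ℂ] K) (h : ResTo F a (T (Multiplicative.ofAdd e))) :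
    ResTo F a.symm (T (Multiplicative.ofAdd (-e))) := by
  intro f
  apply a.injective
  rw [a.apply_symm_apply, ← h]
  have h1 : T (Multiplicative.ofAdd e) (T (Multiplicative.ofAdd (-e)) f) = f := by
    rw [← AlgEquiv.mul_apply, ← map_mul, ← ofAdd_add, add_neg_cancel, ofAdd_zero, map_one]
    rfl
  rw [h1]

theorem ELLQ_main (hG : ST_GENREG) (hL : ST_GLIFT) {X : Set (Subalgebra ℂ K)}
    (hX : IsModel X) (C : Set (K ≃ₐ[ℂ] K)) (hFF : FF F) (y : Fin n → K)
    (hgen : FGen (Set.range y)) {E : Type} [AddCommGroup E]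
    (T : Multiplicative E →* (F ≃ₐ[ℂ] F)) (θ : (S →ₐ[ℂ] ℂ) → E) (hE : EllOut F E T S θ)
    (Q : Set E) (hQ : ∀ e, e ∈ Q ↔ ∃ a : K ≃ₐ[ℂ] K, Pres X a ∧ (∀ b ∈ C, a * b = b * a) ∧
        (∀ i, ∃ u ∈ F, a (y i) = u * y i) ∧ ResTo F a (T (Multiplicative.ofAdd e)))
    (hinf : Q.Infinite) (l : Fin r → F)
    (hl : ∀ e ∈ Q, ∃ a : K ≃ₐ[ℂ] K, Pres X a ∧ (∀ b ∈ C, a * b = b * a) ∧
      ResTo F a (T (Multiplicative.ofAdd e)) ∧ ∃ c : Bool × Fin n × Fin r → ℂ,
      (∀ q i, ∑ k, c (q, i, k) • l k ≠ 0) ∧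
      ∀ i, ((∑ k, c (false, i, k) • l k : F) : K) * a (y i) =
        ((∑ k, c (true, i, k) • l k : F) : K) * y i) :
    ∃ h : S, h ≠ 0 ∧ ∀ z : S →ₐ[ℂ] ℂ, z h ≠ 0 → θ z ∈ Q := by
  classical
  have := hE.dom
  have := hE.ft
  have ftS1 : Algebra.FiniteType ℂ (ELLQ_S1 n r S) :=
    Algebra.FiniteType.trans hE.ft (inferInstance : Algebra.FiniteType S (ELLQ_S1 n r S))
  have : IsNoetherianRing (ELLQ_S1 n r S) := Algebra.FiniteType.isNoetherianRing ℂ _
  let Θ : Set (ELLQ_S1 n r S →ₐ[ℂ] ℂ) := {ζ | (∀ q i, ELLQ_co l ζ q i ≠ 0) ∧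
    ∃ a : K ≃ₐ[ℂ] K, Pres X a ∧ (∀ b ∈ C, a * b = b * a) ∧
      ResTo F a (T (Multiplicative.ofAdd (θ (ζ.comp (ELLQ_inc n r S))))) ∧
      ∀ i, ((ELLQ_co l ζ false i : F) : K) * a (y i) = ((ELLQ_co l ζ true i : F) : K) * y i}
  have hΘinf : ((fun ζ : ELLQ_S1 n r S →ₐ[ℂ] ℂ => θ (ζ.comp (ELLQ_inc n r S))) '' Θ).Infinite := by
    have h1 : (Q ∩ Set.range θ).Infinite := by
      intro hfin
      apply hinf
      refine (hfin.union hE.cof).subset ?_
      intro e he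
      by_cases h : e ∈ Set.range θ
      · exact Or.inl ⟨he, h⟩
      · exact Or.inr h
    refine h1.mono ?_
    rintro e ⟨he, z, rfl⟩
    obtain ⟨a, ha1, ha2, ha3, c, hc1, hc2⟩ := hl _ he
    refine ⟨MvPolynomial.aevalTower z c, ⟨?_, a, ha1, ha2, ?_, ?_⟩, ?_⟩
    · intro q i
      simpa [ELLQ_co] using hc1 q i
    · have : (MvPolynomial.aevalTower z c).comp (ELLQ_inc n r S) = z := by
        ext s
        simp [ELLQ_inc, IsScalarTower.toAlgHom_apply]
      rw [this]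
      exact ha3
    · intro i
      simpa [ELLQ_co] using hc2 i
    · have : (MvPolynomial.aevalTower z c).comp (ELLQ_inc n r S) = z := by
        ext s
        simp [ELLQ_inc, IsScalarTower.toAlgHom_apply]
      show θ _ = _
      rw [this]
  obtain ⟨Θ', hsub, hinf', hprime⟩ := ELLQ_max _ Θ hΘinf
  have := hprime
  let p : Ideal (ELLQ_S1 n r S) := ELLQ_van Θ'
  let mk : ELLQ_S1 n r S →ₐ[ℂ] (ELLQ_S1 n r S ⧸ p) := Ideal.Quotient.mkₐ ℂ p
  let Γ : Set ((ELLQ_S1 n r S ⧸ p) →ₐ[ℂ] ℂ) := {γ | γ.comp mk ∈ Θ'}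
  have : IsDomain (ELLQ_S1 n r S ⧸ p) := Ideal.Quotient.isDomain p
  have : Algebra.FiniteType ℂ (ELLQ_S1 n r S ⧸ p) :=
    Algebra.FiniteType.of_surjective mk (Ideal.Quotient.mkₐ_surjective ℂ p)
  have hΓ : DensePts Γ := by
    intro s hs
    obtain ⟨s, rfl⟩ := Ideal.Quotient.mkₐ_surjective ℂ p s
    have hsp : s ∈ p := by
      intro ζ hζ
      have hker : ∀ a ∈ p, ζ a = 0 := fun a ha => ha ζ hζ
      have h1 : (Ideal.Quotient.liftₐ p ζ hker).comp mk = ζ := Ideal.Quotient.liftₐ_comp p ζ hker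
      have h2 : (Ideal.Quotient.liftₐ p ζ hker) ∈ Γ := by
        show (Ideal.Quotient.liftₐ p ζ hker).comp mk ∈ Θ'
        rw [h1]
        exact hζ
      have h3 := hs _ h2
      rw [← h1]
      exact h3
    exact Ideal.Quotient.eq_zero_iff_mem.mpr hsp
  have hinj : Function.Injective (mk.comp (ELLQ_inc n r S)) := by
    rw [injective_iff_map_eq_zero]
    by_contra hcon
    push Not at hcon
    obtain ⟨s0, hs0, hs0'⟩ := hcon
    have hP0 : (RingHom.ker (mk.comp (ELLQ_inc n r S) : S →+* (ELLQ_S1 n r S ⧸ p))).IsMaximal := by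
      apply hE.dim _ (RingHom.ker_isPrime _)
      intro hbot
      have h1 : s0 ∈ RingHom.ker (mk.comp (ELLQ_inc n r S) : S →+* (ELLQ_S1 n r S ⧸ p)) := hs0
      rw [hbot] at h1
      exact hs0' (by simpa using h1)
    have hker : ∀ ζ ∈ Θ', RingHom.ker (mk.comp (ELLQ_inc n r S) : S →+* (ELLQ_S1 n r S ⧸ p)) =
        RingHom.ker ((ζ.comp (ELLQ_inc n r S)) : S →+* ℂ) := by
      intro ζ hζ
      refine hP0.eq_of_le (RingHom.ker_isPrime _).ne_top ?_
      intro s hs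
      have h1 : mk (ELLQ_inc n r S s) = 0 := hs
      have h2 : ELLQ_inc n r S s ∈ p := Ideal.Quotient.eq_zero_iff_mem.mp h1
      exact h2 ζ hζ
    obtain ⟨e, ζ0, hζ0, he0⟩ := hinf'.nonempty
    apply hinf'
    refine (Set.finite_singleton (θ (ζ0.comp (ELLQ_inc n r S)))).subset ?_
    rintro _ ⟨ζ, hζ, rfl⟩
    have h1 : ζ.comp (ELLQ_inc n r S) = ζ0.comp (ELLQ_inc n r S) := by
      apply ELLQ_ker_eq
      intro s hs
      have h2 : s ∈ RingHom.ker ((ζ.comp (ELLQ_inc n r S)) : S →+* ℂ) := hs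
      rw [← hker ζ hζ, hker ζ0 hζ0] at h2
      exact h2
    show θ (ζ.comp (ELLQ_inc n r S)) = _
    rw [h1]
  -- the families
  obtain ⟨gs, hgs⟩ := hFF.fg
  choose NT DT NT' DT' hNT hDT hNT' hDT' hfam using hE.fam
  let zof : ((ELLQ_S1 n r S ⧸ p) →ₐ[ℂ] ℂ) → (S →ₐ[ℂ] ℂ) :=
    fun γ => γ.comp (mk.comp (ELLQ_inc n r S))
  let Pr : (S →ₐ[ℂ] ℂ) → F := fun z => ∏ k, DT' (l k) z
  let M : Fin r → (S →ₐ[ℂ] ℂ) → F :=
    fun k z => NT' (l k) z * ∏ k' ∈ Finset.univ.erase k, DT' (l k') z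
  have hPr0 : ∀ z, Pr z ≠ 0 := fun z => Finset.prod_ne_zero_iff.mpr fun k _ => (hfam (l k) z).2.2.1
  have hM : ∀ k z, Pr z * T (Multiplicative.ofAdd (-θ z)) (l k) = M k z := by
    intro k z
    show (∏ k, DT' (l k) z) * _ = NT' (l k) z * _
    rw [← Finset.mul_prod_erase Finset.univ (fun k => DT' (l k) z) (Finset.mem_univ k),
      ← (hfam (l k) z).2.2.2]
    ring
  have hMfam : ∀ k, Fam (M k) := fun k =>
    ELLQ_fam_mul (hNT' (l k)) (ELLQ_fam_prod _ fun k' => hDT' (l k'))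
  let coT : Bool → Fin n → ((ELLQ_S1 n r S ⧸ p) →ₐ[ℂ] ℂ) → F := fun q i γ =>
    ∑ k, γ (mk (MvPolynomial.X (q, i, k))) • M k (zof γ)
  have hcoT : ∀ q i γ, Pr (zof γ) * T (Multiplicative.ofAdd (-θ (zof γ)))
      (ELLQ_co l (γ.comp mk) q i) = coT q i γ := by
    intro q i γ
    show Pr (zof γ) * T (Multiplicative.ofAdd (-θ (zof γ))) (∑ k, _ • l k) = _
    rw [map_sum, Finset.mul_sum]
    refine Finset.sum_congr rfl fun k _ => ?_
    have e5 : T (Multiplicative.ofAdd (-θ (zof γ)))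
        ((γ.comp mk) (MvPolynomial.X (q, i, k)) • l k) =
        (γ.comp mk) (MvPolynomial.X (q, i, k)) • T (Multiplicative.ofAdd (-θ (zof γ))) (l k) :=
      LinearMap.map_smul (T (Multiplicative.ofAdd (-θ (zof γ)))).toLinearMap _ _
    rw [e5, mul_smul_comm, hM]
    rfl
  have hcoTfam : ∀ q i, Fam (coT q i) := by
    intro q i
    apply ELLQ_fam_sum
    intro k
    obtain ⟨m, s, x, hx⟩ := ELLQ_fam_comap (mk.comp (ELLQ_inc n r S)) (hMfam k)
    refine ⟨m, fun j => mk (MvPolynomial.X (q, i, k)) * s j, x, ?_⟩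
    intro z
    show z (mk (MvPolynomial.X (q, i, k))) • M k (zof z) = _
    rw [show M k (zof z) = ∑ j, z (s j) • x j from hx z, Finset.smul_sum]
    refine Finset.sum_congr rfl fun j _ => ?_
    rw [smul_smul, map_mul]
  obtain ⟨h, hh, hz⟩ := ELLQ_genreg hG K X hX (ELLQ_S1 n r S ⧸ p) Γ hΓ (Fin n ⊕ gs)
    (Sum.elim y (fun t => ((t : F) : K)))
    (by
      have h1 : Set.range y ⊆ Set.range (Sum.elim y (fun t : gs => ((t : F) : K))) := by
        rintro _ ⟨i, rfl⟩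
        exact ⟨Sum.inl i, rfl⟩
      exact top_le_iff.mp ((ge_of_eq hgen).trans (IntermediateField.adjoin.mono _ _ _ h1)))
    (Sum.elim (fun i γ => ((ELLQ_co l (γ.comp mk) true i : F) : K) * y i)
      (fun t γ => ((NT t (zof γ) : F) : K)))
    (Sum.elim (fun i γ => ((ELLQ_co l (γ.comp mk) false i : F) : K))
      (fun t γ => ((DT t (zof γ) : F) : K)))
    (Sum.elim (fun i γ => ((coT false i γ : F) : K) * y i)
      (fun t γ => ((NT' t (zof γ) : F) : K)))
    (Sum.elim (fun i γ => ((coT true i γ : F) : K))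
      (fun t γ => ((DT' t (zof γ) : F) : K)))
    (by
      rintro (i | t)
      · exact ELLQ_fam_mul (ELLQ_fam_map F (ELLQ_co_fam mk l true i)) (ELLQ_fam_const (y i))
      · exact ELLQ_fam_map F (ELLQ_fam_comap (mk.comp (ELLQ_inc n r S)) (hNT t)))
    (by
      rintro (i | t)
      · exact ELLQ_fam_map F (ELLQ_co_fam mk l false i)
      · exact ELLQ_fam_map F (ELLQ_fam_comap (mk.comp (ELLQ_inc n r S)) (hDT t)))
    (by
      rintro (i | t)
      · exact ELLQ_fam_mul (ELLQ_fam_map F (hcoTfam false i)) (ELLQ_fam_const (y i))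
      · exact ELLQ_fam_map F (ELLQ_fam_comap (mk.comp (ELLQ_inc n r S)) (hNT' t)))
    (by
      rintro (i | t)
      · exact ELLQ_fam_map F (hcoTfam true i)
      · exact ELLQ_fam_map F (ELLQ_fam_comap (mk.comp (ELLQ_inc n r S)) (hDT' t)))
    C (by
      intro γ hγ
      obtain ⟨h1, a, ha1, ha2, ha3, ha4⟩ := hsub hγ
      have ha3' : ResTo F a (T (Multiplicative.ofAdd (θ (zof γ)))) := ha3
      have ha5 := ELLQ_symm T _ a ha3'
      refine ⟨a, ha1, ha2, ?_⟩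
      have coe_ne : ∀ x : F, x ≠ 0 → ((x : F) : K) ≠ 0 := by
        intro x hx hcon
        exact hx (Subtype.ext hcon)
      rintro (i | t)
      · refine ⟨coe_ne _ (h1 false i), ha4 i, ?_, ?_⟩
        · refine coe_ne _ ?_
          rw [← hcoT]
          refine mul_ne_zero (hPr0 _) ?_
          rw [Ne, map_eq_zero_iff _ (T _).injective]
          exact h1 true i
        · show ((coT true i γ : F) : K) * a.symm (y i) = ((coT false i γ : F) : K) * y i
          rw [← hcoT, ← hcoT]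
          have h2 : a.symm (((ELLQ_co l (γ.comp mk) false i : F) : K) * a (y i)) =
              a.symm (((ELLQ_co l (γ.comp mk) true i : F) : K) * y i) := by
            rw [ha4 i]
          rw [map_mul, map_mul, a.symm_apply_apply] at h2
          have h3 := ha5 (ELLQ_co l (γ.comp mk) false i)
          have h4 := ha5 (ELLQ_co l (γ.comp mk) true i)
          have e1 : ∀ u v : F, ((u * v : F) : K) = (u : K) * v := fun _ _ => rfl
          rw [e1, e1, h3, h4, mul_assoc, mul_assoc, ← h2]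
      · have h2 := hfam (t : F) (zof γ)
        refine ⟨coe_ne _ h2.1, ?_, coe_ne _ h2.2.2.1, ?_⟩
        · show ((DT t (zof γ) : F) : K) * a ((t : F) : K) = ((NT t (zof γ) : F) : K)
          rw [← ha3' t, ← h2.2.1]
          rfl
        · show ((DT' t (zof γ) : F) : K) * a.symm ((t : F) : K) = ((NT' t (zof γ) : F) : K)
          rw [← ha5 t, ← h2.2.2.2]
          rfl)
  -- descent to the parameters
  have hQmem : ∀ γ : (ELLQ_S1 n r S ⧸ p) →ₐ[ℂ] ℂ, γ h ≠ 0 → θ (zof γ) ∈ Q := by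
    intro γ hγ
    obtain ⟨a, ha1, ha2, ha3⟩ := hz γ hγ
    rw [hQ]
    refine ⟨a, ha1, ha2, ?_, ?_⟩
    · intro i
      obtain ⟨h1, h2⟩ := ha3 (Sum.inl i)
      have h1' : ((ELLQ_co l (γ.comp mk) false i : F) : K) ≠ 0 := h1
      have h2' : ((ELLQ_co l (γ.comp mk) false i : F) : K) * a (y i) =
        ((ELLQ_co l (γ.comp mk) true i : F) : K) * y i := h2
      refine ⟨((ELLQ_co l (γ.comp mk) true i / ELLQ_co l (γ.comp mk) false i : F) : K),
        SetLike.coe_mem _, ?_⟩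
      have e1 : ((ELLQ_co l (γ.comp mk) true i / ELLQ_co l (γ.comp mk) false i : F) : K) =
        ((ELLQ_co l (γ.comp mk) true i : F) : K) / ((ELLQ_co l (γ.comp mk) false i : F) : K) := rfl
      rw [e1, div_mul_eq_mul_div, eq_div_iff h1', ← h2']
      ring
    · refine ELLQ_gen gs hgs a _ ?_
      intro t ht
      obtain ⟨h1, h2⟩ := ha3 (Sum.inr ⟨t, ht⟩)
      have h1' : ((DT t (zof γ) : F) : K) ≠ 0 := h1
      have h2' : ((DT t (zof γ) : F) : K) * a (t : K) = ((NT t (zof γ) : F) : K) := h2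
      have h3 := (hfam t (zof γ)).2.1
      have h4 : ((DT t (zof γ) : F) : K) * ((T (Multiplicative.ofAdd (θ (zof γ))) t : F) : K) =
          ((NT t (zof γ) : F) : K) := by
        rw [← h3]
        rfl
      exact mul_left_cancel₀ h1' (h4.trans h2'.symm)
  let toT : (ELLQ_S1 n r S ⧸ p) →ₐ[ℂ] Localization.Away h :=
    IsScalarTower.toAlgHom ℂ (ELLQ_S1 n r S ⧸ p) (Localization.Away h)
  have : Algebra.FiniteType ℂ (Localization.Away h) := by
    have : Algebra.FiniteType (ELLQ_S1 n r S ⧸ p) (Localization.Away h) :=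
      IsLocalization.finiteType_of_monoid_fg (Submonoid.powers h) _
    exact Algebra.FiniteType.trans (S := (ELLQ_S1 n r S ⧸ p)) inferInstance inferInstance
  have htoT : Function.Injective toT :=
    IsLocalization.injective (Localization.Away h) (powers_le_nonZeroDivisors_of_noZeroDivisors hh)
  obtain ⟨h', hh', hlift⟩ := hL S (Localization.Away h) (toT.comp (mk.comp (ELLQ_inc n r S)))
    (htoT.comp hinj)
  refine ⟨h', hh', fun z hz' => ?_⟩
  obtain ⟨ζ, hζ⟩ := hlift z hz'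
  have h1 : (ζ.comp toT) h ≠ 0 := by
    have hu : IsUnit (toT h) := IsLocalization.Away.algebraMap_isUnit h
    exact (hu.map ζ).ne_zero
  have h2 := hQmem (ζ.comp toT) h1
  have h3 : zof (ζ.comp toT) = z := hζ
  rwa [h3] at h2

end ELLQmain

theorem st_ELLQ (hG : ST_GENREG) (hL : ST_GLIFT) (hDELTA : ST_DELTA)
    (hRIE : ST_RIE) (hDEG : ST_DEG) : ST_ELLQ := by
  classical
  intro K _ _ X C F n y hX hFF hstab hy hgen hHit E _ T S _ _ θ hE Q hQ hinf
  have := hE.dom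
  have := hE.ft
  have : IsNoetherianRing S := Algebra.FiniteType.isNoetherianRing ℂ S
  have hmem : ∀ e, e ∈ Q ↔ ∃ a : K ≃ₐ[ℂ] K, Pres X a ∧ (∀ b ∈ C, a * b = b * a) ∧
        (∀ i, ∃ u ∈ F, a (y i) = u * y i) ∧ ResTo F a (T (Multiplicative.ofAdd e)) := by
    intro e
    rw [hQ]
    rfl
  have hneg : ∀ e ∈ Q, -e ∈ Q := by
    intro e he
    rw [hmem] at he ⊢
    obtain ⟨a, h1, h2, h3, h4⟩ := he
    have h5 := ELLQ_symm T e a h4
    refine ⟨a.symm, ELLQ_pres_symm h1, ?_, ?_, h5⟩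
    · intro b hb
      ext x
      show a.symm (b x) = b (a.symm x)
      apply a.injective
      rw [a.apply_symm_apply]
      have h6 : (a * b) (a.symm x) = (b * a) (a.symm x) := by rw [h2 b hb]
      have h7 : a (b (a.symm x)) = b (a (a.symm x)) := h6
      rw [h7, a.apply_symm_apply]
    · intro i
      obtain ⟨u, hu, hau⟩ := h3 i
      have h6 : y i = a.symm u * a.symm (y i) := by
        rw [← map_mul, ← hau, a.symm_apply_apply]
      have h7 : a.symm u ≠ 0 := by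
        intro h0
        rw [h0, zero_mul] at h6
        exact hy i h6
      have h8 : a.symm u ∈ F := by
        rw [← h5 ⟨u, hu⟩]
        exact SetLike.coe_mem _
      refine ⟨(a.symm u)⁻¹, F.inv_mem h8, ?_⟩
      nth_rw 2 [h6]
      rw [← mul_assoc, inv_mul_cancel₀ h7, one_mul]
  have hadd : ∀ e ∈ Q, ∀ e' ∈ Q, e + e' ∈ Q := by
    intro e he e' he'
    rw [hmem] at he he' ⊢
    obtain ⟨a, h1, h2, h3, h4⟩ := he
    obtain ⟨a', h1', h2', h3', h4'⟩ := he'
    refine ⟨a * a', ELLQ_pres_mul h1 h1', ?_, ?_, ?_⟩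
    · intro b hb
      rw [mul_assoc, h2' b hb, ← mul_assoc, h2 b hb, mul_assoc]
    · intro i
      obtain ⟨u, hu, hau⟩ := h3 i
      obtain ⟨u', hu', hau'⟩ := h3' i
      have h8 : a u' ∈ F := by
        rw [← h4 ⟨u', hu'⟩]
        exact SetLike.coe_mem _
      refine ⟨a u' * u, F.mul_mem h8 hu, ?_⟩
      show a (a' (y i)) = _
      rw [hau', map_mul, hau, mul_assoc]
    · intro f
      rw [ofAdd_add, map_mul]
      show ((T (Multiplicative.ofAdd e) (T (Multiplicative.ofAdd e') f) : F) : K) = a (a' f)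
      rw [h4, h4']
  obtain ⟨δ, hδ1, hδ2, hδ3, hδ4⟩ := hDELTA K X hX F hFF
  let pos : Dv F → Dv F := fun D => D.mapRange (fun n => max 0 n) (by simp)
  let neg : Dv F → Dv F := fun D => D.mapRange (fun n => max 0 (-n)) (by simp)
  have hdgpos : ∀ D : Dv F, 0 ≤ dg (pos D) := by
    intro D
    refine Finset.sum_nonneg fun w _ => ?_
    show 0 ≤ pos D w
    simp [pos]
  have hdgneg : ∀ D : Dv F, 0 ≤ dg (neg D) := by
    intro D
    refine Finset.sum_nonneg fun w _ => ?_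
    show 0 ≤ neg D w
    simp [neg]
  let m : ℤ := ∑ i, (dg (pos (δ (y i))) + dg (neg (δ (y i))))
  have hm : ∀ i, dg (pos (δ (y i))) + dg (neg (δ (y i))) ≤ m := by
    intro i
    exact Finset.single_le_sum (f := fun i => dg (pos (δ (y i))) + dg (neg (δ (y i))))
      (fun j _ => add_nonneg (hdgpos _) (hdgneg _)) (Finset.mem_univ i)
  obtain ⟨D₀, hfin, hratio⟩ := ELLQ_ratio hRIE hDEG hFF m
  let bas := Module.finBasis ℂ (LL D₀)
  let l : Fin (Module.finrank ℂ (LL D₀)) → F := fun k => ((bas k : LL D₀) : F)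
  have hspan : ∀ α ∈ LL D₀, ∃ c : Fin (Module.finrank ℂ (LL D₀)) → ℂ, ∑ k, c k • l k = α := by
    intro α hα
    refine ⟨fun k => bas.repr ⟨α, hα⟩ k, ?_⟩
    have h1 := congrArg (LL D₀).subtype (bas.sum_repr ⟨α, hα⟩)
    rw [map_sum] at h1
    simpa using h1
  obtain ⟨h, hh, hz⟩ := ELLQ_main hG hL hX C hFF y hgen T θ hE Q hmem hinf l (by
    intro e he
    rw [hmem] at he
    obtain ⟨a, h1, h2, h3, h4⟩ := he
    refine ⟨a, h1, h2, h4, ?_⟩
    have h5 : ∀ i, ∃ c : Bool → Fin (Module.finrank ℂ (LL D₀)) → ℂ,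
        (∀ q, ∑ k, c q k • l k ≠ 0) ∧
        ((∑ k, c false k • l k : F) : K) * a (y i) = ((∑ k, c true k • l k : F) : K) * y i := by
      intro i
      obtain ⟨u, hu, hau⟩ := h3 i
      let u' : F := ⟨u, hu⟩
      have hu0 : u' ≠ 0 := by
        intro hcon
        have hcon' : u = 0 := congrArg Subtype.val hcon
        rw [hcon', zero_mul] at hau
        exact hy i ((map_eq_zero_iff _ a.injective).mp hau)
      let b := T (Multiplicative.ofAdd e)
      have hw : ∀ w : Pl F, w.1 u' = δ (y i) (actPl b.symm w) - δ (y i) w := by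
        intro w
        have e1 := hδ4 a h1 b h4 (y i) (hy i) (actPl b.symm w)
        rw [ELLQ_act_act] at e1
        have e2 := hδ3 (y i) (hy i) u' hu0 w (by rw [hHit]; trivial)
        have e3 : ((u' : F) : K) * y i = a (y i) := hau.symm
        rw [e3, e1] at e2
        omega
      have hdom : ∀ w : Pl F, (neg (δ (y i))).mapDomain (actPl b) w =
          neg (δ (y i)) (actPl b.symm w) := by
        intro w
        have e4 := Finsupp.mapDomain_apply (ELLQ_act_inj b) (neg (δ (y i))) (actPl b.symm w)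
        rwa [ELLQ_act_act] at e4
      obtain ⟨α, hα, β, hβ, hα0, hβ0, hαβ⟩ := hratio u'
        (pos (δ (y i)) + (neg (δ (y i))).mapDomain (actPl b)) hu0 (by
          rw [ELLQ_dg_add, ELLQ_dg_map]
          exact hm i) (by
          intro w
          rw [Finsupp.add_apply, hdom w]
          simp only [pos, neg, Finsupp.mapRange_apply]
          omega) (by
          intro w
          rw [hw w, Finsupp.add_apply, hdom w]
          simp only [pos, neg, Finsupp.mapRange_apply]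
          omega)
      obtain ⟨cα, hcα⟩ := hspan α hα
      obtain ⟨cβ, hcβ⟩ := hspan β hβ
      refine ⟨fun q => bif q then cα else cβ, ?_, ?_⟩
      · intro q
        cases q
        · simpa [hcβ] using hβ0
        · simpa [hcα] using hα0
      · simp only [cond_true, cond_false]
        rw [hcα, hcβ, hau, ← hαβ]
        show ((β : F) : K) * (u * y i) = ((β : F) : K) * u * y i
        ring
    choose c hc1 hc2 using h5
    exact ⟨fun t => c t.2.1 t.1 t.2.2, fun q i => hc1 i q, hc2⟩)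
  refine ELLQ_cof Q hneg hadd ?_ hinf
  refine (hE.cof.union ((ELLQ_fin hE.dim h hh).image θ)).subset ?_
  intro e he
  by_cases hr : e ∈ Set.range θ
  · obtain ⟨z, rfl⟩ := hr
    right
    refine ⟨z, ?_, rfl⟩
    show z h = 0
    by_contra hcon
    exact he (hz z hcon)
  · exact Or.inl hr

end Pool.Agent.Helper43.FV
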